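import Pool.Agent.TH131.WCub.Main

/-!
# The monodromy-weight conjecture and smooth affine cubic hypersurfaces with coefficients 0, 1, -1
-/

set_option autoImplicit false

open CategoryTheory AlgebraicGeometry

namespace Pool.Agent.Results.MP_cd312e_ag.CubicHypersurfaces

open Pool.Agent.TH90.Cub Pool.Agent.TH590.JH Pool.Agent.TH131.Near Pool.Agent.TH131.WCub

/-- **The monodromy-weight conjecture and cubic hypersurfaces.** Let `ℓ ≠ p` be primes. The
following are equivalent:

* the `ℓ`-adic monodromy-weight conjecture holds for all smooth proper varieties `Y` over all finite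
  extensions of `ℚ_p` (all `H^n(Y)` are pure of weight `n`);
* for all hypersurfaces `C` with an equation `g_0 t_0 + ⋯ + g_r t_r = 1` in the affine space over `ℚ`
  with the coordinates `x_1, …, x_n, t_0, …, t_r`, each `g_i` being of the form `x_a x_b - x_c`,
  `x_a + x_b - x_c` or `x_a - 1`, and all `j` and all `w ≥ 3`, the graded piece of weight `w` of the
  weight filtration of `H_c^j(C, ℚ_ℓ)` is pure of weight `w` as a representation of the Galois group
  of `ℚ_p`.

If they hold, the graded pieces of `H_c^j(X, ℚ_ℓ)` are pure in this sense for all separated schemes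
`X` of finite type over `ℚ`. The hypersurfaces `C` are smooth over `ℚ`. -/
theorem result {K : ℕ → Type} [∀ ℓ, Field (K ℓ)] (T : EllAdic K) (L : LocalVarieties T)
    (hres : Resolution) (π : PrimePair) (hlow : T.LowDegrees π) :
    (L.MonodromyWeight π ↔ T.PureOnCubics π) ∧ (L.MonodromyWeight π → T.PureOnAll π) ∧
    (∀ (n r : ℕ) (g : Fin (r + 1) → MvPolynomial (Fin n) ℚ), Smooth (str ℚ (Cubic g))) :=
  ⟨(main T L hres π hlow).1, (main T L hres π hlow).2, fun _ _ g => cubic_smooth g⟩

end Pool.Agent.Results.MP_cd312e_ag.CubicHypersurfaces
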