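import Mathlib
import Pool.Agent.TH131.MW.Bij

/-!
# The monodromy-weight conjecture for `H^3`, and for the extreme graded pieces of `H^w`

Let `X` be a projective strictly semistable scheme of relative dimension `n` over a henselian
discrete valuation ring with finite residue field of `q` elements, and let `3 ≤ w ≤ n`. The
monodromy-weight conjecture for `H^w` says that

`N^r : gr_{w+r} H^w → gr_{w-r} H^w` is bijective for all `r ≥ 1`,

where `gr` is for the weight filtration; by Rapoport and Zink this is the map
`E_2^{-r,w+r} → E_2^{r,w-r}` of the weight spectral sequence. The theorem says that this map is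
bijective for all `r ≥ w - 2` (hence for all `r ≥ 1` if `w = 3`) if

* (T) every element of the generalized eigenspace of Frobenius on `H^2(Y^(w-2))` for the eigenvalue
  `q` has the same restriction to `Y^(w-1)` as a combination of classes of divisors. This follows
  from the conjecture of Tate for divisors on the components of `Y^(w-2)`;
* (E) every eigenvalue `α ≠ q` of Frobenius on the image of `H^2(Y^(w-2)) → H^2(Y^(w-1))` is a
  simple eigenvalue on `H^2(Y^(w-1))` and conjugate over `ℚ_ℓ` to `q^2 / α`, or the multiplicities
  of the eigenvalue `q^2 / α` on the image and on `H^2(Y^(w-1))` agree. For example, this holds if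
  `q` is the only eigenvalue on `H^2(Y^(w-2))` or the only eigenvalue on `H^2(Y^(w-1))`.

Here `Y^(m)` is the disjoint union of the `m`-fold intersections of components of the special
fibre. The structures `B`, `D`, `I`, `H`, `Z`, `F`, `H1` and the hypotheses on dimensions list the known facts
about the weight spectral sequence which are used (see `Pool.Agent.TH131.MW.Defs`); the equalities
of dimensions follow from Poincaré duality and the hard Lefschetz theorem for the generic fibre,
which are compatible with the weight filtration.

The case `w = n = 3`, when `H^2(Y^(1))` is spanned by classes of divisors, is due to T. Ito.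
-/

set_option autoImplicit false

namespace Pool.Agent.Results.MP_cd312e_ag.ExtremeGradedPieces

open Pool.Agent.TH131.MW

/-- The powers `N^r`, `r = w - 2, w - 1, w`, of the monodromy operator induce bijections between
the graded pieces of weights `w + r` and `w - r` of `H^w`. -/
theorem result {B : Components} {D : Divisors B} {I : Intersections D} {K : Type} [Field K]
    [CharZero K] (hI : HodgeIndex I) (H : Cohomology B K) (Z : CycleClasses I H)
    (F : Frobenius H) (H1 : CohomologyOne K)
    (hdim2 : H.SameDimension2) (hdim1 : H1.SameDimension1) (hdim0 : H.SameDimension0)
    (hT : F.TateDivisors Z) (hE : F.EigenvalueCondition) :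
    H.Monodromy2 ∧ H1.Monodromy1 ∧ H.Monodromy0 :=
  ⟨H.monodromy2 hI Z F hT hE hdim2, H1.monodromy1 hdim1, H.monodromy0 hdim0⟩

end Pool.Agent.Results.MP_cd312e_ag.ExtremeGradedPieces
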