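import Mathlib
import Pool.Agent.TH131.WMF.ConeMain

/-!
# The monodromy-weight conjecture in large residue characteristic

For all `n` and `d` there is an integer `M > 0` such that the monodromy-weight conjecture holds for
all smooth closed subschemes `X` of degree at most `d` of `ℙ^n_K`, for all finite extensions `K` of
the fields `ℚ_p` with `p` not dividing `M`, for `H^w(X_K̄, ℚ_ℓ)` for all `w` and all `ℓ ≠ p`.

* `F`, `hl`, `hh`: a log smooth family which contains all these varieties over finite extensions of
  the fields of definition, its cohomology, which is lisse, and Hodge theory in characteristic `0`.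
* `𝒮`, `hc`, `hw`: the varieties, the comparison of their cohomology with the cohomology of the
  family, and the Weil conjectures (for the graded pieces of the weight filtration).
-/

set_option autoImplicit false

namespace Pool.Agent.Results.MP_cd312e_ag.LargeResidueCharacteristic

open Pool.Agent.TH131.WMF

/-- The monodromy-weight conjecture holds for the smooth projective varieties of degree at most `d`
over local fields of large residue characteristic. -/
theorem result {K : ℕ → Type} [∀ ℓ, Field (K ℓ)] [∀ ℓ, CharZero (K ℓ)] {F : LogSmoothFamily K}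
    (hl : F.IsLisse) (hh : F.HodgeTheory) (𝒮 : SmoothVarieties F) (hc : 𝒮.Comparison)
    (hw : 𝒮.WeilConjectures) :
    ∃ M : ℕ, 0 < M ∧ ∀ X : 𝒮.Obj, ¬ 𝒮.p X ∣ M →
      ∀ ℓ : ℕ, ℓ.Prime → ℓ ≠ 𝒮.p X → ∀ w, 𝒮.MWPure X ℓ w :=
  exists_bound hl hh 𝒮 hc hw

end Pool.Agent.Results.MP_cd312e_ag.LargeResidueCharacteristic
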