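import Mathlib
import Pool.Agent.TH131.WMF.ProgMain

/-!
# The monodromy-weight conjecture at all finite places for residue classes in families

Let `𝒳 → 𝔸^r_ℚ ∖ {Δ = 0}` be a smooth projective family. Suppose that for each prime `p` there is
one point `t` of `𝔸^r_ℚ ∖ {Δ = 0}` with coordinates in `ℤ_p` such that the monodromy-weight
conjecture holds for the variety `𝒳_t` over `ℚ_p` (for example `𝒳_t` has good reduction). Then there
is a residue class in `ℤ^r` such that for all `t` in this residue class with `Δ(t) ≠ 0` the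
monodromy-weight conjecture holds for the variety `𝒳_t` over `ℚ` at all primes `p`.

For example, let `Z` be a smooth projective scheme over `ℤ` and `𝒳` the family of the smooth
sections of `Z_ℚ` by hypersurfaces of degree `e`, such that for each `p` there is a section of `Z`
over `ℤ_p` which is smooth.

* `F`, `hl`, `hh`, `𝒮`, `hc`, `hw`: smooth projective varieties of bounded degree over local fields,
  as in `LargeResidueCharacteristic`.
* `𝒳`, `hk`: the family, and the theorem on the local constancy of its cohomology (Kisin, Ito).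
* `hg`: the condition.
-/

set_option autoImplicit false

namespace Pool.Agent.Results.MP_cd312e_ag.ProgressionsInFamilies

open Pool.Agent.TH131.WMF

/-- If for each prime `p` the monodromy-weight conjecture holds for one member over `ℤ_p`, then it
holds at all primes for all members in a residue class in `ℤ^r`. -/
theorem result {K : ℕ → Type} [∀ ℓ, Field (K ℓ)] [∀ ℓ, CharZero (K ℓ)] {F : LogSmoothFamily K}
    (hl : F.IsLisse) (hh : F.HodgeTheory) {𝒮 : SmoothVarieties F} (hc : 𝒮.Comparison)
    (hw : 𝒮.WeilConjectures) (𝒳 : AffineFamily 𝒮) (hk : 𝒳.IsLocallyConstant)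
    (hg : ∀ (p : ℕ) [Fact p.Prime], ∃ t : Fin 𝒳.r → ℤ_[p], IsPoint 𝒳.Δ t ∧ 𝒳.Holds p t) :
    ∃ (m : ℕ) (a : Fin 𝒳.r → ℤ), 0 < m ∧ ∀ t : Fin 𝒳.r → ℤ, (∀ i, t i ≡ a i [ZMOD m]) →
      IsPoint 𝒳.Δ t → 𝒳.HoldsEverywhere t :=
  progression hl hh hc hw 𝒳 hk hg

end Pool.Agent.Results.MP_cd312e_ag.ProgressionsInFamilies
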